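import Pool.Agent.H207.BT.Stm

set_option autoImplicit false

/-!
Project BT, S_FOL2: following with relative closeness.
-/

open Topology Filter Metric Set MeasureTheory Polynomial

namespace Pool.Agent.H903.BT207

open Pool.Agent.H211.HY

/-- the orbit at the parameter `0`, and continuity there -/
theorem YY_cont {k : ℕ} {i : Fin k} {f : ℕ → (Fin k → ℂ) → ℂ → ℂ} {v : (Fin k → ℂ) → ℂ} {z : ℕ → ℂ}
    {x : ℕ → ℝ} {ρ C c μ : ℝ} {κ : ℂ} (hG : Good i f v z x ρ C c μ κ) (n : ℕ) :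
    YY f v n 0 = z n ∧ ContinuousAt (YY f v n) 0 := by
  induction n with
  | zero =>
    refine ⟨hG.v0, ?_⟩
    have h1 : DifferentiableAt ℂ v 0 := hG.vd.differentiableAt (isOpen_ball.mem_nhds (mem_ball_self hG.ρ0))
    exact h1.continuousAt
  | succ n ih =>
    obtain ⟨h1, h2⟩ := ih
    constructor
    · change f n 0 (YY f v n 0) = z (n + 1)
      rw [h1]
      exact hG.fz n
    · have h3 : DifferentiableAt ℂ (fun p : (Fin k → ℂ) × ℂ => f n p.1 p.2) (0, z n) := by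
        apply (hG.fd n).differentiableAt
        exact (isOpen_ball.prod isOpen_ball).mem_nhds ⟨mem_ball_self hG.ρ0, mem_ball_self hG.ρ0⟩
      have h4 : ContinuousAt (fun p : (Fin k → ℂ) × ℂ => f n p.1 p.2) (0, YY f v n 0) := by
        rw [h1]
        exact h3.continuousAt
      have h5 : ContinuousAt (fun s : Fin k → ℂ => (s, YY f v n s)) 0 := continuousAt_id.prodMk h2
      have h6 : ContinuousAt ((fun p : (Fin k → ℂ) × ℂ => f n p.1 p.2) ∘ (fun s : Fin k → ℂ => (s, YY f v n s))) 0 :=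
        ContinuousAt.comp (f := fun s : Fin k → ℂ => (s, YY f v n s)) (x := 0) h4 h5
      exact h6

/-- **S_FOL2** -/
theorem t_FOL2 (h : Pool.Agent.H211.HY.S_FOL) : Pool.Agent.H207.BT.S_FOL2 := by
  intro k i f v z x ρ C c μ κ hG ε hε τ hτ
  obtain ⟨θ', hθ', r', hr', N', hF⟩ := h k i f v z x ρ C c μ κ hG (min ε 1) (lt_min hε one_pos)
  have hc := hG.c0
  have hx : ∀ n, 0 < x n := fun n => (hG.xx n).1
  obtain ⟨M, hM⟩ : ∃ M : ℝ, M = 1 / c + (‖κ‖ + 1) := ⟨_, rfl⟩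
  have hM0 : 0 < M := by rw [hM]; positivity
  have hDD : ∀ n, c ≤ ‖DD f z n‖ := by
    intro n
    have h1 := hG.gr n
    have h2 : 1 ≤ μ ^ n := one_le_pow₀ hG.μ1.le
    have h3 := mul_le_mul_of_nonneg_left h2 hc.le
    linarith
  -- the first few points
  obtain ⟨r1, hr1, hc1⟩ : ∃ r1 > (0:ℝ), ∀ s ∈ ball (0 : Fin k → ℂ) r1, ∀ n ∈ Finset.range N', ‖s‖ + ‖YY f v n s - z n‖ ≤ τ * x n := by
    have h1 : ∀ n ∈ Finset.range N', ∀ᶠ s in 𝓝 (0 : Fin k → ℂ), ‖s‖ + ‖YY f v n s - z n‖ ≤ τ * x n := by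
      intro n _
      obtain ⟨h2, h3⟩ := YY_cont hG n
      have h4 : ContinuousAt (fun s : Fin k → ℂ => ‖s‖ + ‖YY f v n s - z n‖) 0 :=
        continuousAt_id.norm.add (h3.sub continuousAt_const).norm
      have h5 : (fun s : Fin k → ℂ => ‖s‖ + ‖YY f v n s - z n‖) 0 < τ * x n := by
        simp only [h2, norm_zero, sub_self, add_zero]
        exact mul_pos hτ (hx n)
      filter_upwards [h4.eventually_lt_const h5] with s hs
      exact hs.le
    have h2 : ∀ᶠ s in 𝓝 (0 : Fin k → ℂ), ∀ n ∈ Finset.range N', ‖s‖ + ‖YY f v n s - z n‖ ≤ τ * x n :=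
      (Filter.eventually_all_finset (Finset.range N')).2 h1
    obtain ⟨r1, hr1, h3⟩ := Metric.eventually_nhds_iff_ball.1 h2
    exact ⟨r1, hr1, h3⟩
  refine ⟨min θ' (τ / M), lt_min hθ' (div_pos hτ hM0), min r' r1, lt_min hr' hr1, N', ?_⟩
  intro r N hr hr0 hN hsum
  have hrr' : r ≤ r' := hr0.trans (min_le_left _ _)
  have hrr1 : r ≤ r1 := hr0.trans (min_le_right _ _)
  obtain ⟨hd, hm⟩ := hF r N hr hrr' hN (hsum.trans (min_le_left _ _))
  refine ⟨hd, fun s hs => ?_⟩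
  obtain ⟨m1, m2⟩ := hm s hs
  have hs' : ‖s‖ < r := by rwa [mem_ball_zero_iff] at hs
  refine ⟨fun n hn => ⟨m1 n hn, ?_⟩, m2.trans ?_⟩
  · by_cases hnN : n < N'
    · exact hc1 s (ball_subset_ball hrr1 hs) n (Finset.mem_range.2 hnN)
    · push Not at hnN
      have hterm : ∀ j ∈ Finset.range N, 0 ≤ r * ‖DD f z j‖ / x j := fun j _ =>
        div_nonneg (mul_nonneg hr.le (norm_nonneg _)) (hx j).le
      have h1 : ∑ j ∈ Finset.range n, r * ‖DD f z j‖ / x j ≤ ∑ j ∈ Finset.range N, r * ‖DD f z j‖ / x j :=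
        Finset.sum_le_sum_of_subset_of_nonneg (Finset.range_subset_range.2 hn.le) fun j hj _ => hterm j hj
      obtain ⟨_, hm2⟩ := hF r n hr hrr' hnN ((h1.trans hsum).trans (min_le_left _ _))
      obtain ⟨_, h2⟩ := hm2 s hs
      have h3 : r * ‖DD f z n‖ / x n ≤ τ / M :=
        ((Finset.single_le_sum hterm (Finset.mem_range.2 hn)).trans hsum).trans (min_le_right _ _)
      rw [div_le_div_iff₀ (hx n) hM0] at h3
      have h4 : ‖κ * DD f z n * s i‖ ≤ ‖κ‖ * (r * ‖DD f z n‖) := by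
        rw [norm_mul, norm_mul]
        have h5 : ‖s i‖ ≤ r := (norm_le_pi_norm s i).trans hs'.le
        calc ‖κ‖ * ‖DD f z n‖ * ‖s i‖ ≤ ‖κ‖ * ‖DD f z n‖ * r := mul_le_mul_of_nonneg_left h5 (by positivity)
          _ = ‖κ‖ * (r * ‖DD f z n‖) := by ring
      have h5 : ‖YY f v n s - z n‖ ≤ (‖κ‖ + 1) * (r * ‖DD f z n‖) := by
        have e1 : YY f v n s - z n = (YY f v n s - z n - κ * DD f z n * s i) + κ * DD f z n * s i := by ring
        have h6 : min ε 1 * r * ‖DD f z n‖ ≤ 1 * (r * ‖DD f z n‖) := by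
          rw [mul_assoc]
          exact mul_le_mul_of_nonneg_right (min_le_right _ _) (mul_nonneg hr.le (norm_nonneg _))
        calc ‖YY f v n s - z n‖ = ‖(YY f v n s - z n - κ * DD f z n * s i) + κ * DD f z n * s i‖ := by rw [← e1]
          _ ≤ ‖YY f v n s - z n - κ * DD f z n * s i‖ + ‖κ * DD f z n * s i‖ := norm_add_le _ _
          _ ≤ (‖κ‖ + 1) * (r * ‖DD f z n‖) := by linarith
      have h6 : ‖s‖ ≤ 1 / c * (r * ‖DD f z n‖) := by
        rw [one_div, le_inv_mul_iff₀ hc]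
        calc c * ‖s‖ ≤ c * r := mul_le_mul_of_nonneg_left hs'.le hc.le
          _ = r * c := mul_comm _ _
          _ ≤ r * ‖DD f z n‖ := mul_le_mul_of_nonneg_left (hDD n) hr.le
      calc ‖s‖ + ‖YY f v n s - z n‖ ≤ r * ‖DD f z n‖ * M := by rw [hM]; linarith
        _ ≤ τ * x n := h3
  · rw [mul_assoc, mul_assoc]
    exact mul_le_mul_of_nonneg_right (min_le_left _ _) (mul_nonneg hr.le (norm_nonneg _))

end Pool.Agent.H903.BT207
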